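import Pool.Agent.K4H37.DM.Geom

/-!
# Five sets of regions

`Y j` (`j : Fin 5`) are down-closed sets of regions, and the region `h` is below every region which is
above all the regions of all the `Y j`. Then one of the `Y j` is superfluous: there is an index `i`
such that `h` is below every region which is above all the regions of the `Y j` with `j ≠ i` and above
all the regions `g ≤ h` of all the `Y j`.
-/

set_option autoImplicit false

namespace Pool.Agent.K4H37.DM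

variable {V : Type*} [AddCommGroup V] [Module ℝ V] {ι : Type*} [Fintype ι]

theorem cover_index [FiniteDimensional ℝ V] (hfin : Module.finrank ℝ V ≤ 3)
    (f : ι → V →ₗ[ℝ] ℝ) {b : V} (hb : ∀ i, f i b = 1) {c₀ : ι} (hc₀ : Atom f c₀)
    (Y : Fin 5 → Set V) (hgen : ∀ j, ∀ g ∈ Y j, ∀ i, f i g ≠ 0) :
    ∃ j₁ j₂ : Fin 5, ∀ R, 0 < f c₀ R →
      (∀ g ∈ Y j₁, ∀ u, f u g < 0 → f u R < 0) → (∀ g ∈ Y j₂, ∀ u, f u g < 0 → f u R < 0) →
      ∀ j, ∀ g ∈ Y j, ∀ u, f u g < 0 → f u R < 0 := by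
  by_cases h1 : ∃ j, ∃ g ∈ Y j, f c₀ g < 0
  · obtain ⟨j, g, hg, hneg⟩ := h1
    exact ⟨j, j, fun R hR hj _ => absurd (hj g hg c₀ hneg) (not_lt.2 hR.le)⟩
  · push Not at h1
    by_cases h2 : ∃ g ∈ (⋃ j, Y j), ∃ u, f u g < 0
    · obtain ⟨g₁, hg₁, g₂, hg₂, hkey⟩ := two_cover hfin f hb hc₀ (⋃ j, Y j) (by
        intro g hg
        obtain ⟨j, hj⟩ := Set.mem_iUnion.1 hg
        exact lt_of_le_of_ne (h1 j g hj) (hgen j g hj c₀).symm) h2
      obtain ⟨j₁, hj₁⟩ := Set.mem_iUnion.1 hg₁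
      obtain ⟨j₂, hj₂⟩ := Set.mem_iUnion.1 hg₂
      refine ⟨j₁, j₂, fun R hR hR₁ hR₂ j g hg u hu => ?_⟩
      refine hkey R hR ?_ g (Set.mem_iUnion.2 ⟨j, hg⟩) u hu
      rintro v (hv | hv)
      · exact hR₁ g₁ hj₁ v hv
      · exact hR₂ g₂ hj₂ v hv
    · push Not at h2
      refine ⟨0, 0, fun R _ _ _ j g hg u hu => ?_⟩
      exact absurd hu (not_lt.2 (h2 g (Set.mem_iUnion.2 ⟨j, hg⟩) u))

theorem exists_fifth (a b c d : Fin 5) : ∃ i : Fin 5, i ≠ a ∧ i ≠ b ∧ i ≠ c ∧ i ≠ d := by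
  by_contra hcon
  push Not at hcon
  have h1 : (Finset.univ : Finset (Fin 5)) ⊆ {a, b, c, d} := by
    intro i _
    simp only [Finset.mem_insert, Finset.mem_singleton]
    by_contra h2
    push Not at h2
    exact h2.2.2.2 (hcon i h2.1 h2.2.1 h2.2.2.1)
  have h2 := Finset.card_le_card h1
  have h3 : ({a, b, c, d} : Finset (Fin 5)).card ≤ 4 := Finset.card_le_four
  simp at h2
  omega

/-- **One of five sets of regions is superfluous.** -/
theorem five [FiniteDimensional ℝ V] (hfin : Module.finrank ℝ V ≤ 3)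
    (f : ι → V →ₗ[ℝ] ℝ) {b : V} (hb : ∀ i, f i b = 1) (hinj : Function.Injective f)
    (Y : Fin 5 → Set V) (hgen : ∀ j, ∀ g ∈ Y j, ∀ i, f i g ≠ 0)
    (hdown : ∀ j, ∀ g ∈ Y j, ∀ x, (∀ i, f i x ≠ 0) → (∀ i, f i x < 0 → f i g < 0) → x ∈ Y j)
    (h : V) (hh : ∀ i, f i h ≠ 0)
    (hle : ∀ R, (∀ i, f i R ≠ 0) → (∀ j, ∀ g ∈ Y j, ∀ i, f i g < 0 → f i R < 0) →
      ∀ i, f i h < 0 → f i R < 0) :
    ∃ i : Fin 5, ∀ R, (∀ u, f u R ≠ 0) →
      (∀ j, ∀ g ∈ Y j, (∀ u, f u g < 0 → f u h < 0) → ∀ u, f u g < 0 → f u R < 0) →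
      (∀ j, j ≠ i → ∀ g ∈ Y j, ∀ u, f u g < 0 → f u R < 0) →
      ∀ p, f p h < 0 → f p R < 0 := by
  by_cases he : ∃ e, Atom f e ∧ f e h < 0
  swap
  · refine ⟨0, fun R _ _ _ p hp => ?_⟩
    obtain ⟨e, he', hA⟩ := exists_atom f hb hinj h hp
    exact absurd ⟨e, hA, he'⟩ he
  -- the facets that separate `h` are in the regions of `Y`
  have hatom : ∀ R, (∀ u, f u R ≠ 0) →
      (∀ j, ∀ g ∈ Y j, (∀ u, f u g < 0 → f u h < 0) → ∀ u, f u g < 0 → f u R < 0) →
      ∀ e, Atom f e → f e h < 0 → f e R < 0 := by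
    intro R hR hR' e ⟨a, ha, ha'⟩ heh
    have hagen : ∀ i, f i a ≠ 0 := by
      intro i
      by_cases hi : i = e
      · subst hi; exact ha.ne
      · exact (ha' i hi).ne'
    by_cases hU : ∃ j, ∃ g ∈ Y j, f e g < 0
    · obtain ⟨j, g, hg, hge⟩ := hU
      have haY : a ∈ Y j := by
        refine hdown j g hg a hagen ?_
        intro i hi
        by_cases hie : i = e
        · subst hie; exact hge
        · exact absurd hi (not_lt.2 (ha' i hie).le)
      refine hR' j a haY ?_ e ha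
      intro i hi
      by_cases hie : i = e
      · subst hie; exact heh
      · exact absurd hi (not_lt.2 (ha' i hie).le)
    · exfalso
      push Not at hU
      have h1 := hle (-a) (by intro i; rw [map_neg]; exact neg_ne_zero.2 (hagen i)) (by
        intro j g hg i hi
        rw [map_neg]
        by_cases hie : i = e
        · subst hie
          exact absurd hi (not_lt.2 (hU j g hg))
        · linarith [ha' i hie]) e heh
      rw [map_neg] at h1
      linarith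
  by_cases hf : ∃ e, Atom f e ∧ 0 < f e h
  swap
  · -- all the facets separate `h`
    push Not at hf
    refine ⟨0, fun R hR hR' _ p hp => ?_⟩
    by_contra hcon
    have hpR : f p (-R) < 0 := by
      rw [map_neg]
      have := lt_of_le_of_ne (not_lt.1 hcon) (hR p).symm
      linarith
    obtain ⟨e, heR, hA⟩ := exists_atom f hb hinj (-R) hpR
    have h1 : f e h < 0 := lt_of_le_of_ne (hf e hA) (hh e)
    have h2 := hatom R hR hR' e hA h1
    rw [map_neg] at heR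
    linarith
  obtain ⟨l, r, hl, hr, hkey⟩ := exists_neighbours hfin f hb hinj h hh he hf
  obtain ⟨j₁, j₂, h12⟩ := cover_index hfin f hb hl Y hgen
  obtain ⟨j₃, j₄, h34⟩ := cover_index hfin f hb hr Y hgen
  obtain ⟨i, hi1, hi2, hi3, hi4⟩ := exists_fifth j₁ j₂ j₃ j₄
  refine ⟨i, fun R hR hR' hY p hp => ?_⟩
  rcases lt_or_gt_of_ne (hR l) with hlR | hlR
  · rcases lt_or_gt_of_ne (hR r) with hrR | hrR
    · exact hkey R (hatom R hR hR') hlR hrR p hp
    · exact hle R hR (h34 R hrR (hY j₃ hi3.symm) (hY j₄ hi4.symm)) p hp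
  · exact hle R hR (h12 R hlR (hY j₁ hi1.symm) (hY j₂ hi2.symm)) p hp

end Pool.Agent.K4H37.DM
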