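import Pool.Agent.K4H37.DM.Hull

/-!
# Regions of central arrangements in dimension at most three

`f i` (`i : ι`) are pairwise different linear forms on `V` with value `1` at the point `b`, and `V`
has dimension at most `3`. For a point `x` of `V` the set `{i | f i x < 0}` is the set of the
hyperplanes `ker (f i)` which separate `x` from `b`.
-/

set_option autoImplicit false

open Filter Topology

namespace Pool.Agent.K4H37.DM

variable {V : Type*} [AddCommGroup V] [Module ℝ V] {ι : Type*} [Fintype ι]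

/-- The hyperplane of `e` is a facet of the base region: it is the only one which separates some
point from `b`. -/
def Atom (f : ι → V →ₗ[ℝ] ℝ) (e : ι) : Prop := ∃ a : V, f e a < 0 ∧ ∀ i, i ≠ e → 0 < f i a

/-- A point which separates all the forms. -/
theorem exists_sep (f : ι → V →ₗ[ℝ] ℝ) (hinj : Function.Injective f) :
    ∃ v : V, ∀ i j, i ≠ j → f i v ≠ f j v := by
  obtain ⟨v, hv⟩ := Module.Dual.exists_forall_ne_zero_of_forall_exists (K := ℝ) (M := V)
    (ι := {p : ι × ι // p.1 ≠ p.2}) (fun p => f p.1.1 - f p.1.2) (by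
      rintro ⟨⟨i, j⟩, hij⟩
      by_contra hcon
      push Not at hcon
      apply hij
      apply hinj
      ext x
      have := hcon x
      simp only [LinearMap.sub_apply] at this
      linarith)
  refine ⟨v, fun i j hij h => hv ⟨(i, j), hij⟩ ?_⟩
  simp only [LinearMap.sub_apply]
  linarith

theorem exists_atom (f : ι → V →ₗ[ℝ] ℝ) {b : V} (hb : ∀ i, f i b = 1)
    (hinj : Function.Injective f) (x : V) {p : ι} (hp : f p x < 0) :
    ∃ e, f e x < 0 ∧ Atom f e := by
  classical
  obtain ⟨v, hv⟩ := exists_sep f hinj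
  obtain ⟨e0, -, hmin⟩ := Finset.univ.exists_min_image (fun i => f i x) ⟨p, Finset.mem_univ p⟩
  obtain ⟨e, he, hemin⟩ := (Finset.univ.filter (fun i => f i x = f e0 x)).exists_min_image
    (fun i => f i v) ⟨e0, by simp⟩
  rw [Finset.mem_filter] at he
  have hex : ∀ i, f e x ≤ f i x := fun i => by rw [he.2]; exact hmin i (Finset.mem_univ i)
  have h1 : ∀ᶠ ε : ℝ in 𝓝[>] 0, ∀ i, i ≠ e → 0 < (f i x - f e x) + ε * (f i v - f e v) := by
    rw [Filter.eventually_all]
    intro i
    by_cases hie : i = e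
    · exact Filter.Eventually.of_forall fun _ h => absurd hie h
    · rcases (hex i).eq_or_lt with heq | hlt
      · have hlt' : f e v < f i v := by
          have h2 := hemin i (by rw [Finset.mem_filter]; exact ⟨Finset.mem_univ i, by rw [← heq, he.2]⟩)
          exact lt_of_le_of_ne h2 (hv e i (Ne.symm hie))
        filter_upwards [self_mem_nhdsWithin] with ε hε _
        rw [heq, sub_self, zero_add]
        exact mul_pos hε (by linarith)
      · have hc : Tendsto (fun ε : ℝ => (f i x - f e x) + ε * (f i v - f e v)) (𝓝[>] 0)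
            (𝓝 ((f i x - f e x) + 0 * (f i v - f e v))) := by
          apply Tendsto.mono_left _ nhdsWithin_le_nhds
          exact Continuous.tendsto (by fun_prop) 0
        have hpos : 0 < (f i x - f e x) + 0 * (f i v - f e v) := by linarith
        filter_upwards [hc.eventually_const_lt hpos] with ε hε _
        exact hε
  obtain ⟨ε, hε⟩ := h1.exists
  have h2 : ∀ᶠ δ : ℝ in 𝓝[>] 0, ∀ i, i ≠ e → δ < (f i x - f e x) + ε * (f i v - f e v) := by
    rw [Filter.eventually_all]
    intro i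
    by_cases hie : i = e
    · exact Filter.Eventually.of_forall fun _ h => absurd hie h
    · have := hε i hie
      filter_upwards [mem_nhdsWithin_of_mem_nhds (Iio_mem_nhds this)] with δ hδ _
      exact hδ
  obtain ⟨δ, hδ, hδ0⟩ := (h2.and self_mem_nhdsWithin).exists
  refine ⟨e, ?_, x + ε • v - (f e x + ε * f e v + δ) • b, ?_, ?_⟩
  · exact lt_of_le_of_lt (hex p) hp
  · rw [map_sub, map_add, map_smul, map_smul, hb, smul_eq_mul, smul_eq_mul]
    have : (0 : ℝ) < δ := hδ0
    linarith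
  · intro i hi
    rw [map_sub, map_add, map_smul, map_smul, hb, smul_eq_mul, smul_eq_mul]
    have := hδ i hi
    linarith

/-- In dimension at most three two independent vectors are completed by one vector. -/
theorem exists_third [FiniteDimensional ℝ V] (hfin : Module.finrank ℝ V ≤ 3) (u v : V)
    (hind : ∀ x y : ℝ, x • u + y • v = 0 → x = 0 ∧ y = 0) :
    ∃ c : V, ∀ z : V, ∃ x y w : ℝ, z = x • u + y • v + w • c := by
  have hli : LinearIndependent ℝ ![u, v] := by
    rw [LinearIndependent.pair_iff]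
    intro x y h
    exact hind x y h
  have h2 : Module.finrank ℝ (Submodule.span ℝ (Set.range ![u, v])) = 2 := by
    rw [finrank_span_eq_card hli]
    simp
  have h3 := Submodule.finrank_quotient_add_finrank (Submodule.span ℝ (Set.range ![u, v]))
  have h1 : Module.finrank ℝ (V ⧸ Submodule.span ℝ (Set.range ![u, v])) ≤ 1 := by omega
  obtain ⟨c', hc'⟩ := finrank_le_one_iff.1 h1
  obtain ⟨c, rfl⟩ := Submodule.Quotient.mk_surjective _ c'
  refine ⟨c, fun z => ?_⟩
  obtain ⟨w, hw⟩ := hc' (Submodule.Quotient.mk z)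
  have hmem : z - w • c ∈ Submodule.span ℝ (Set.range ![u, v]) := by
    rw [← Submodule.Quotient.mk_eq_zero, Submodule.Quotient.mk_sub, Submodule.Quotient.mk_smul, hw,
      sub_self]
  rw [Matrix.range_cons, Matrix.range_cons, Matrix.range_empty, Set.union_empty,
    Set.singleton_union, Submodule.mem_span_pair] at hmem
  obtain ⟨x, y, hxy⟩ := hmem
  exact ⟨x, y, w, by rw [hxy]; abel⟩

/-- **Two neighbours suffice.** There are two facets `l`, `r`, which do not separate `h`, such that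
every point `R` separated by `l` and `r` and by all the facets that separate `h` is separated by all
the hyperplanes that separate `h`. -/
theorem exists_neighbours [FiniteDimensional ℝ V] (hfin : Module.finrank ℝ V ≤ 3)
    (f : ι → V →ₗ[ℝ] ℝ) {b : V} (hb : ∀ i, f i b = 1) (hinj : Function.Injective f) (h : V)
    (hh : ∀ i, f i h ≠ 0) (he : ∃ e, Atom f e ∧ f e h < 0) (hf : ∃ e, Atom f e ∧ 0 < f e h) :
    ∃ l r, Atom f l ∧ Atom f r ∧
      ∀ R : V, (∀ e, Atom f e → f e h < 0 → f e R < 0) → f l R < 0 → f r R < 0 →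
        ∀ p, f p h < 0 → f p R < 0 := by
  classical
  obtain ⟨e₀, he₀, he₀'⟩ := he
  obtain ⟨g₀, hg₀, hg₀'⟩ := hf
  obtain ⟨c, hc⟩ := exists_third hfin h b (by
    intro x y hxy
    have h1 := congrArg (f e₀) hxy
    have h2 := congrArg (f g₀) hxy
    simp only [map_add, map_smul, hb, smul_eq_mul, mul_one, map_zero] at h1 h2
    have h3 : x * (f e₀ h - f g₀ h) = 0 := by linarith
    have hx : x = 0 := by
      rcases mul_eq_zero.1 h3 with h4 | h4
      · exact h4
      · linarith
    subst hx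
    exact ⟨rfl, by linarith⟩)
  set P : Finset (ι × ι) := Finset.univ.filter
    (fun p => (Atom f p.1 ∧ f p.1 h < 0) ∧ (Atom f p.2 ∧ 0 < f p.2 h)) with hP
  have hPm : ∀ p, p ∈ P ↔ (Atom f p.1 ∧ f p.1 h < 0) ∧ (Atom f p.2 ∧ 0 < f p.2 h) := by
    intro p
    rw [hP, Finset.mem_filter]
    exact ⟨fun h => h.2, fun h => ⟨Finset.mem_univ _, h⟩⟩
  have hPne : P.Nonempty := ⟨(e₀, g₀), (hPm _).2 ⟨⟨he₀, he₀'⟩, ⟨hg₀, hg₀'⟩⟩⟩
  set w : ι × ι → V → ℝ := fun p x => (-f p.1 h) * f p.2 x + f p.2 h * f p.1 x with hw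
  have hwb : ∀ p ∈ P, 0 < w p b := by
    intro p hp
    have := (hPm p).1 hp
    simp only [hw, hb]
    linarith [this.1.2, this.2.2]
  have hwx : ∀ p, ∀ x y z : ℝ, w p (x • h + y • b + z • c) = y * w p b + z * w p c := by
    intro p x y z
    simp only [hw, map_add, map_smul, smul_eq_mul]
    ring
  set σ : ι × ι → ℝ := fun p => w p c / w p b with hσ
  obtain ⟨l, hl, hlmin⟩ := P.exists_min_image σ hPne
  obtain ⟨r, hr, hrmax⟩ := P.exists_max_image σ hPne
  refine ⟨l.2, r.2, ((hPm l).1 hl).2.1, ((hPm r).1 hr).2.1, ?_⟩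
  intro R hR hlR hrR p hp
  by_contra hcon
  have hpR : 0 ≤ f p R := not_lt.1 hcon
  obtain ⟨x, y, z, hxyz⟩ := hc R
  have hneg : ∀ q ∈ P, f q.2 R < 0 → w q R < 0 := by
    intro q hq hqR
    have hq' := (hPm q).1 hq
    have h1 := hR q.1 hq'.1.1 hq'.1.2
    simp only [hw]
    nlinarith [mul_pos (neg_pos.2 hq'.1.2) (neg_pos.2 hqR), mul_pos hq'.2.2 (neg_pos.2 h1)]
  have hkey : ∀ q ∈ P, w q R < 0 ↔ y + z * σ q < 0 := by
    intro q hq
    have hqb := hwb q hq
    rw [hxyz, hwx]
    have h1 : y * w q b + z * w q c = w q b * (y + z * σ q) := by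
      simp only [hσ]
      field_simp
    rw [h1]
    constructor
    · intro h2
      by_contra h3
      have := mul_nonneg hqb.le (not_lt.1 h3)
      linarith
    · intro h2
      exact mul_neg_of_pos_of_neg hqb h2
  have hl' := (hkey l hl).1 (hneg l hl hlR)
  have hr' := (hkey r hr).1 (hneg r hr hrR)
  have hall : ∀ q ∈ P, w q R < 0 := by
    intro q hq
    rw [hkey q hq]
    have h1 := hlmin q hq
    have h2 := hrmax q hq
    rcases le_total 0 z with hz | hz
    · have := mul_le_mul_of_nonneg_left h2 hz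
      linarith
    · have := mul_le_mul_of_nonpos_left h1 hz
      linarith
  -- the critical time
  obtain ⟨e, he, hemax⟩ := (Finset.univ.filter (fun e => Atom f e ∧ f e h < 0)).exists_max_image
    (fun e => f e h / f e R) ⟨e₀, by
      rw [Finset.mem_filter]
      exact ⟨Finset.mem_univ _, he₀, he₀'⟩⟩
  rw [Finset.mem_filter] at he
  obtain ⟨-, heA, heh⟩ := he
  have heR := hR e heA heh
  set T : ℝ := f e h / f e R with hT
  have hTpos : 0 < T := div_pos_of_neg_of_neg heh heR
  have hC : ∀ g, Atom f g → 0 < f g h → 0 < f g h - T * f g R := by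
    intro g hg hgh
    have h1 := hall (e, g) ((hPm _).2 ⟨⟨heA, heh⟩, ⟨hg, hgh⟩⟩)
    simp only [hw] at h1
    have hRne : f e R ≠ 0 := heR.ne
    have h2 : (f g h - T * f g R) * f e R = f g h * f e R - f e h * f g R := by
      rw [hT, sub_mul, mul_right_comm, div_mul_cancel₀ _ hRne]
    by_contra hcon2
    have h3 := mul_nonneg_of_nonpos_of_nonpos (not_lt.1 hcon2) heR.le
    rw [h2] at h3
    linarith
  have h1 : ∀ᶠ t : ℝ in 𝓝[>] T, ∀ g, Atom f g → 0 < f g h → 0 < f g h - t * f g R := by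
    rw [Filter.eventually_all]
    intro g
    by_cases hg : Atom f g ∧ 0 < f g h
    · have hc2 : Tendsto (fun t : ℝ => f g h - t * f g R) (𝓝[>] T) (𝓝 (f g h - T * f g R)) := by
        apply Tendsto.mono_left _ nhdsWithin_le_nhds
        exact Continuous.tendsto (by fun_prop) T
      filter_upwards [hc2.eventually_const_lt (hC g hg.1 hg.2)] with t ht _ _
      exact ht
    · exact Filter.Eventually.of_forall fun t h2 h3 => absurd ⟨h2, h3⟩ hg
  obtain ⟨t, ht, htT⟩ := (h1.and self_mem_nhdsWithin).exists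
  have htT' : T < t := htT
  have htpos : 0 < t := hTpos.trans htT'
  have hpx : f p (h - t • R) < 0 := by
    rw [map_sub, map_smul, smul_eq_mul]
    have := mul_nonneg htpos.le hpR
    linarith
  obtain ⟨a, hax, haA⟩ := exists_atom f hb hinj (h - t • R) hpx
  rw [map_sub, map_smul, smul_eq_mul] at hax
  rcases lt_or_gt_of_ne (hh a) with hlt | hgt
  · have haR := hR a haA hlt
    have h2 := hemax a (by rw [Finset.mem_filter]; exact ⟨Finset.mem_univ _, haA, hlt⟩)
    have h3 : f a h / f a R < t := lt_of_le_of_lt h2 htT'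
    rw [div_lt_iff_of_neg haR] at h3
    linarith
  · have := ht a haA hgt
    linarith

/-- **Two points suffice for a facet outside.** -/
theorem two_cover [FiniteDimensional ℝ V] (hfin : Module.finrank ℝ V ≤ 3)
    (f : ι → V →ₗ[ℝ] ℝ) {b : V} (hb : ∀ i, f i b = 1) {c₀ : ι} (hc₀ : Atom f c₀) (G : Set V)
    (hG : ∀ g ∈ G, 0 < f c₀ g) (hne : ∃ g ∈ G, ∃ u, f u g < 0) :
    ∃ g₁ ∈ G, ∃ g₂ ∈ G, ∀ R, 0 < f c₀ R → (∀ u, (f u g₁ < 0 ∨ f u g₂ < 0) → f u R < 0) →
      ∀ g ∈ G, ∀ u, f u g < 0 → f u R < 0 := by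
  classical
  obtain ⟨a, ha, ha'⟩ := hc₀
  set a' : V := a - (f c₀ a) • b with ha'def
  have ha0 : f c₀ a' = 0 := by
    rw [ha'def, map_sub, map_smul, hb, smul_eq_mul]; ring
  have hapos : ∀ u, u ≠ c₀ → 0 < f u a' := by
    intro u hu
    rw [ha'def, map_sub, map_smul, hb, smul_eq_mul]
    linarith [ha' u hu]
  obtain ⟨g₀, hg₀, u₀, hu₀⟩ := hne
  have hu₀c : u₀ ≠ c₀ := by
    rintro rfl
    exact absurd hu₀ (not_lt.2 (hG g₀ hg₀).le)
  obtain ⟨c₁, hc₁⟩ := exists_third hfin a' b (by
    intro x y hxy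
    have h1 := congrArg (f c₀) hxy
    have h2 := congrArg (f u₀) hxy
    simp only [map_add, map_smul, hb, smul_eq_mul, mul_one, map_zero, ha0, mul_zero,
      zero_add] at h1 h2
    subst h1
    refine ⟨?_, rfl⟩
    rcases mul_eq_zero.1 (by linarith : x * f u₀ a' = 0) with h3 | h3
    · exact h3
    · exact absurd h3 (hapos u₀ hu₀c).ne')
  set c : V := c₁ - (f c₀ c₁) • b with hcdef
  have hc0 : f c₀ c = 0 := by
    rw [hcdef, map_sub, map_smul, hb, smul_eq_mul]; ring
  have hdec : ∀ z : V, ∃ x y : ℝ, ∀ u, f u z = x * f u a' + y * f u c + f c₀ z := by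
    intro z
    obtain ⟨x, y, w, hz⟩ := hc₁ z
    have h0 : f c₀ z = y + w * f c₀ c₁ := by
      rw [hz]
      simp only [map_add, map_smul, hb, smul_eq_mul, ha0]
      ring
    refine ⟨x, w, fun u => ?_⟩
    rw [h0, hcdef]
    conv_lhs => rw [hz]
    simp only [map_add, map_sub, map_smul, hb, smul_eq_mul]
    ring
  choose α γ hαγ using hdec
  set U : Finset ι := Finset.univ.filter (fun u => ∃ g ∈ G, f u g < 0) with hU
  have hUm : ∀ u, u ∈ U ↔ ∃ g ∈ G, f u g < 0 := by
    intro u
    rw [hU, Finset.mem_filter]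
    exact ⟨fun h => h.2, fun h => ⟨Finset.mem_univ _, h⟩⟩
  have hUc : ∀ u ∈ U, u ≠ c₀ := by
    intro u hu
    obtain ⟨g, hg, hgu⟩ := (hUm u).1 hu
    rintro rfl
    exact absurd hgu (not_lt.2 (hG g hg).le)
  have hiff : ∀ u, u ≠ c₀ → ∀ z, 0 < f c₀ z →
      (f u z < 0 ↔ 1 / f u a' < (-α z / f c₀ z) + (-γ z / f c₀ z) * (f u c / f u a')) := by
    intro u hu z hz
    have h1 := hapos u hu
    rw [← sub_pos (a := _ + _)]
    have h2 : (-α z / f c₀ z) + (-γ z / f c₀ z) * (f u c / f u a') - 1 / f u a'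
        = -(f u z) / (f c₀ z * f u a') := by
      rw [hαγ z u]
      field_simp
      ring
    rw [h2, div_pos_iff_of_pos_right (mul_pos hz h1)]
    constructor
    · intro h; linarith
    · intro h; linarith
  obtain ⟨⟨g₁, hg₁⟩, ⟨g₂, hg₂⟩, hkey⟩ := two_lines (G := G) U (fun u => f u c / f u a')
    (fun u => 1 / f u a') (fun g => -α g.1 / f c₀ g.1) (fun g => -γ g.1 / f c₀ g.1)
    ⟨u₀, (hUm u₀).2 ⟨g₀, hg₀, hu₀⟩⟩ (by
      intro u hu
      obtain ⟨g, hg, hgu⟩ := (hUm u).1 hu
      exact ⟨⟨g, hg⟩, (hiff u (hUc u hu) g (hG g hg)).1 hgu⟩)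
  refine ⟨g₁, hg₁, g₂, hg₂, fun R hR hR' g hg u hgu => ?_⟩
  have hu : u ∈ U := (hUm u).2 ⟨g, hg, hgu⟩
  rw [hiff u (hUc u hu) R hR]
  refine hkey (-α R / f c₀ R) (-γ R / f c₀ R) ?_ u hu
  intro v hv hv'
  rw [← hiff v (hUc v hv) R hR]
  apply hR'
  rcases hv' with h | h
  · exact Or.inl ((hiff v (hUc v hv) g₁ (hG g₁ hg₁)).2 h)
  · exact Or.inr ((hiff v (hUc v hv) g₂ (hG g₂ hg₂)).2 h)

end Pool.Agent.K4H37.DM
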