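import Mathlib

/-!
# Two lines cover the upper hull

Let `U` be a finite set of points `(s u, t u)` of the plane and let `l g` (`g : G`) be non-vertical
lines such that every point of `U` is below one of them. Then there are two of these lines, `l g₁`
and `l g₂`, such that every non-vertical line which is above all the points of `U` that are below
`l g₁` or `l g₂` is above all the points of `U`.
-/

set_option autoImplicit false

namespace Pool.Agent.K4H37.DM

variable {ι G : Type*}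

/-- The point `u` is on the upper hull of `U`. -/
def Upper (U : Finset ι) (s t : ι → ℝ) (u : ι) : Prop :=
  u ∈ U ∧ ∀ v ∈ U, ∀ w ∈ U, ∀ x y : ℝ, 0 ≤ x → 0 ≤ y → x + y = 1 →
    x * s v + y * s w = s u → x * t v + y * t w ≤ t u

theorem exists_upper (U : Finset ι) (s t : ι → ℝ) (a c : ℝ) {u : ι} (hu : u ∈ U)
    (h : a + c * s u ≤ t u) : ∃ v, Upper U s t v ∧ a + c * s v ≤ t v := by
  obtain ⟨v, hv, hmax⟩ := U.exists_max_image (fun u => t u - (a + c * s u)) ⟨u, hu⟩
  refine ⟨v, ⟨hv, ?_⟩, ?_⟩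
  · intro p hp q hq x y hx hy hxy hs
    have h1 := mul_le_mul_of_nonneg_left (hmax p hp) hx
    have h2 := mul_le_mul_of_nonneg_left (hmax q hq) hy
    have h3 : x * (t p - (a + c * s p)) + y * (t q - (a + c * s q))
        = (x * t p + y * t q) - (a * (x + y) + c * (x * s p + y * s q)) := by ring
    have h4 : x * (t v - (a + c * s v)) + y * (t v - (a + c * s v))
        = (x + y) * (t v - (a + c * s v)) := by ring
    rw [hxy, hs] at h3
    rw [hxy] at h4
    linarith
  · have := hmax u hu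
    linarith

theorem upper_dichotomy (U : Finset ι) (s t : ι → ℝ) (a c : ℝ) {u : ι} (hu : Upper U s t u)
    (h : t u < a + c * s u) :
    (∀ v, Upper U s t v → s v ≤ s u → t v < a + c * s v) ∨
      (∀ v, Upper U s t v → s u ≤ s v → t v < a + c * s v) := by
  by_contra hcon
  push Not at hcon
  obtain ⟨⟨v, hv, hvu, hv'⟩, ⟨w, hw, huw, hw'⟩⟩ := hcon
  obtain ⟨x, y, hx, hy, hxy, hs⟩ : ∃ x y : ℝ, 0 ≤ x ∧ 0 ≤ y ∧ x + y = 1 ∧
      x * s v + y * s w = s u := by
    have : s u ∈ segment ℝ (s v) (s w) := by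
      rw [segment_eq_Icc (hvu.trans huw)]
      exact ⟨hvu, huw⟩
    obtain ⟨x, y, hx, hy, hxy, e⟩ := this
    exact ⟨x, y, hx, hy, hxy, by simpa using e⟩
  have h1 := hu.2 v hv.1 w hw.1 x y hx hy hxy hs
  have h2 := mul_le_mul_of_nonneg_left hv' hx
  have h3 := mul_le_mul_of_nonneg_left hw' hy
  have h4 : x * (a + c * s v) + y * (a + c * s w) = a * (x + y) + c * (x * s v + y * s w) := by
    ring
  rw [hxy, hs] at h4
  linarith

/-- **Two lines cover the upper hull.** -/
theorem two_lines (U : Finset ι) (s t : ι → ℝ) (α γ : G → ℝ) (hU : U.Nonempty)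
    (hcov : ∀ u ∈ U, ∃ g, t u < α g + γ g * s u) :
    ∃ g₁ g₂ : G, ∀ a c : ℝ,
      (∀ u ∈ U, (t u < α g₁ + γ g₁ * s u ∨ t u < α g₂ + γ g₂ * s u) → t u < a + c * s u) →
      ∀ u ∈ U, t u < a + c * s u := by
  classical
  suffices hkey : ∃ g₁ g₂ : G, ∀ u, Upper U s t u →
      (t u < α g₁ + γ g₁ * s u ∨ t u < α g₂ + γ g₂ * s u) by
    obtain ⟨g₁, g₂, hg⟩ := hkey
    refine ⟨g₁, g₂, fun a c h u hu => ?_⟩
    by_contra hcon
    obtain ⟨v, hv, hv'⟩ := exists_upper U s t a c hu (not_lt.1 hcon)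
    exact absurd (h v hv.1 (hg v hv)) (not_lt.2 hv')
  set W : Finset ι := U.filter (fun u => Upper U s t u) with hW
  have hWm : ∀ u, u ∈ W ↔ Upper U s t u := by
    intro u
    rw [hW, Finset.mem_filter]
    exact ⟨fun h => h.2, fun h => ⟨h.1, h⟩⟩
  have hWne : W.Nonempty := by
    obtain ⟨u, hu⟩ := hU
    obtain ⟨v, hv, -⟩ := exists_upper U s t (t u) 0 hu (by simp)
    exact ⟨v, (hWm v).2 hv⟩
  set D : Finset ι := W.filter (fun u => ∃ g, ∀ v, Upper U s t v → s v ≤ s u →
    t v < α g + γ g * s v) with hD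
  have hDm : ∀ u, u ∈ D ↔ Upper U s t u ∧ ∃ g, ∀ v, Upper U s t v → s v ≤ s u →
      t v < α g + γ g * s v := by
    intro u
    rw [hD, Finset.mem_filter, hWm]
  have hup : ∀ u, Upper U s t u → u ∉ D → ∃ g, ∀ v, Upper U s t v → s u ≤ s v →
      t v < α g + γ g * s v := by
    intro u hu hn
    obtain ⟨g, hg⟩ := hcov u hu.1
    refine ⟨g, ?_⟩
    rcases upper_dichotomy U s t (α g) (γ g) hu hg with h | h
    · exact absurd ((hDm u).2 ⟨hu, g, h⟩) hn
    · exact h
  rcases D.eq_empty_or_nonempty with hDe | hDne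
  · obtain ⟨u, hu, hmin⟩ := W.exists_min_image s hWne
    obtain ⟨g, hg⟩ := hup u ((hWm u).1 hu) (by rw [hDe]; simp)
    exact ⟨g, g, fun v hv => Or.inl (hg v hv (hmin v ((hWm v).2 hv)))⟩
  · obtain ⟨u₁, hu₁, hmax⟩ := D.exists_max_image s hDne
    obtain ⟨hu₁', g₁, hg₁⟩ := (hDm u₁).1 hu₁
    set E : Finset ι := W.filter (fun u => s u₁ < s u) with hE
    rcases E.eq_empty_or_nonempty with hEe | hEne
    · refine ⟨g₁, g₁, fun v hv => Or.inl (hg₁ v hv ?_)⟩
      by_contra hcon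
      have : v ∈ E := by
        rw [hE, Finset.mem_filter]
        exact ⟨(hWm v).2 hv, not_le.1 hcon⟩
      rw [hEe] at this
      simp at this
    · obtain ⟨u₂, hu₂, hmin⟩ := E.exists_min_image s hEne
      have hu₂' := hu₂
      rw [hE, Finset.mem_filter] at hu₂'
      have hn : u₂ ∉ D := fun h => absurd (hmax u₂ h) (not_le.2 hu₂'.2)
      obtain ⟨g₂, hg₂⟩ := hup u₂ ((hWm u₂).1 hu₂'.1) hn
      refine ⟨g₁, g₂, fun v hv => ?_⟩
      rcases le_or_gt (s v) (s u₁) with h | h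
      · exact Or.inl (hg₁ v hv h)
      · refine Or.inr (hg₂ v hv (hmin v ?_))
        rw [hE, Finset.mem_filter]
        exact ⟨(hWm v).2 hv, h⟩

end Pool.Agent.K4H37.DM
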