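import Pool.Agent.K4H37.DM.Five
import Pool.Agent.H178R3.PosRegions
import Pool.Agent.R761.BipLat.Defs

/-!
# The identity

`x ∧ (y₀ ∨ … ∨ y₄) = ⋁ᵢ x ∧ (z ∨ ⋁ (y j : j ≠ i))` with `z = ⋁ⱼ (x ∧ y j)`.

It holds in the completion of the poset of regions of every central arrangement in `ℝ^d`, `d ≤ 3`, and
fails in the lattice of the subspaces of `ℚ⁵`.
-/

set_option autoImplicit false

open Pool.Agent.H178R3 Pool.Agent.H178R3.CentralArrangement R761.BipLat

namespace Pool.Agent.K4H37.DM

/-- The join of five terms. -/
def sup5 (t : Fin 5 → LTerm) : LTerm :=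
  .sup (t 0) (.sup (t 1) (.sup (t 2) (.sup (t 3) (t 4))))

/-- The variable `y j`, `j < 5`. (The variable `x` is the variable number `0`.) -/
def varY (j : Fin 5) : LTerm := .var (j.1 + 1)

/-- The term `x ∧ (y₀ ∨ … ∨ y₄)`. -/
def leftSide : LTerm := .inf (.var 0) (sup5 varY)

/-- The term `z = (x ∧ y₀) ∨ … ∨ (x ∧ y₄)`. -/
def termZ : LTerm := sup5 fun j => .inf (.var 0) (varY j)

/-- The join of the terms `xᵢ = x ∧ (z ∨ ⋁ (y j : j ≠ i))`, `i < 5`: in `xᵢ` the variable `y i` is
replaced by `z`. -/
def rightSide : LTerm := sup5 fun i => .inf (.var 0) (sup5 fun j => if j = i then termZ else varY j)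

section eval

variable {L : Type*} [Lattice L] (v : ℕ → L)

theorem sup5_le {t : Fin 5 → LTerm} {a : L} (h : ∀ j, (t j).eval v ≤ a) : (sup5 t).eval v ≤ a := by
  simp only [sup5, LTerm.eval]
  exact sup_le (h 0) (sup_le (h 1) (sup_le (h 2) (sup_le (h 3) (h 4))))

theorem le_sup5 (t : Fin 5 → LTerm) (j : Fin 5) : (t j).eval v ≤ (sup5 t).eval v := by
  simp only [sup5, LTerm.eval]
  fin_cases j
  · exact le_sup_left
  · exact le_sup_left.trans le_sup_right
  · exact (le_sup_left.trans le_sup_right).trans le_sup_right
  · exact ((le_sup_left.trans le_sup_right).trans le_sup_right).trans le_sup_right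
  · exact ((le_sup_right.trans le_sup_right).trans le_sup_right).trans le_sup_right

theorem termZ_le : termZ.eval v ≤ (sup5 varY).eval v := by
  apply sup5_le
  intro j
  exact (inf_le_right : (LTerm.var 0).eval v ⊓ (varY j).eval v ≤ _).trans (le_sup5 v varY j)

theorem right_le_left : rightSide.eval v ≤ leftSide.eval v := by
  apply sup5_le
  intro i
  refine inf_le_inf le_rfl (sup5_le v fun j => ?_)
  by_cases hj : j = i
  · rw [if_pos hj]
    exact termZ_le v
  · rw [if_neg hj]
    exact le_sup5 v varY j

end eval

/-! ### Failure in a lattice of subspaces -/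

section fail

universe u

/-- The `i`-th coordinate. -/
noncomputable def coord (i : Fin 5) : ULift.{u} (Fin 5 → ℚ) →ₗ[ℚ] ℚ :=
  (LinearMap.proj i).comp (ULift.moduleEquiv (R := ℚ) (M := Fin 5 → ℚ)).toLinearMap

theorem coord_apply (i : Fin 5) (x : ULift.{u} (Fin 5 → ℚ)) : coord i x = x.down i := rfl

/-- The values of the variables for which the identity fails. -/
noncomputable def failV (n : ℕ) : Submodule ℚ (ULift.{u} (Fin 5 → ℚ)) :=
  if n = 0 then Submodule.span ℚ {ULift.up fun _ => 1}
  else Submodule.span ℚ {ULift.up fun i => if i.1 + 1 = n then 1 else 0}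

theorem fail_inf_ker (i : Fin 5) :
    (LTerm.var 0).eval failV.{u} ⊓ LinearMap.ker (coord.{u} i) = ⊥ := by
  rw [eq_bot_iff]
  rintro x ⟨hx, hk⟩
  simp only [LTerm.eval, failV, if_true, SetLike.mem_coe, Submodule.mem_span_singleton] at hx
  obtain ⟨a, rfl⟩ := hx
  rw [SetLike.mem_coe, LinearMap.mem_ker, coord_apply] at hk
  simp only [ULift.smul_down, Pi.smul_apply, smul_eq_mul, mul_one] at hk
  subst hk
  simp

theorem failY_le_ker {i j : Fin 5} (h : j ≠ i) :
    (varY j).eval failV.{u} ≤ LinearMap.ker (coord.{u} i) := by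
  simp only [varY, LTerm.eval, failV, Nat.add_eq_zero_iff, one_ne_zero, and_false, if_false]
  rw [Submodule.span_le, Set.singleton_subset_iff, SetLike.mem_coe, LinearMap.mem_ker, coord_apply]
  simp only [add_left_inj]
  rw [if_neg]
  intro h'
  exact h (Fin.ext h').symm

theorem fail : leftSide.eval failV.{u} ≠ rightSide.eval failV.{u} := by
  have hz : termZ.eval failV.{u} ≤ ⊥ := by
    apply sup5_le
    intro j
    obtain ⟨i, hi⟩ : ∃ i : Fin 5, j ≠ i := by
      by_cases h0 : j = 0
      · exact ⟨1, by rw [h0]; decide⟩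
      · exact ⟨0, h0⟩
    rw [← fail_inf_ker i]
    exact inf_le_inf le_rfl (failY_le_ker hi)
  have hr : rightSide.eval failV.{u} ≤ ⊥ := by
    apply sup5_le
    intro i
    rw [← fail_inf_ker i]
    refine inf_le_inf le_rfl (sup5_le _ fun j => ?_)
    by_cases hj : j = i
    · rw [if_pos hj]
      exact hz.trans bot_le
    · rw [if_neg hj]
      exact failY_le_ker hj
  intro heq
  rw [← heq] at hr
  set one : ULift.{u} (Fin 5 → ℚ) := ULift.up fun _ => 1 with hone
  have h1 : one ∈ leftSide.eval failV.{u} := by
    refine ⟨?_, ?_⟩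
    · simp only [LTerm.eval, failV, if_true]
      exact Submodule.mem_span_singleton_self _
    · have hsum : one = ∑ j : Fin 5, (ULift.up fun i : Fin 5 => if i = j then (1 : ℚ) else 0 :
          ULift.{u} (Fin 5 → ℚ)) := by
        apply ULift.down_injective
        funext i
        have : (∑ j : Fin 5, (ULift.up fun i : Fin 5 => if i = j then (1 : ℚ) else 0 :
          ULift.{u} (Fin 5 → ℚ))).down i = ∑ j : Fin 5, (if i = j then (1 : ℚ) else 0) := by
          have h := map_sum (coord.{u} i) (fun j : Fin 5 => (ULift.up fun i : Fin 5 =>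
            if i = j then (1 : ℚ) else 0 : ULift.{u} (Fin 5 → ℚ))) Finset.univ
          simp only [coord_apply] at h
          exact h
        rw [this]
        simp [hone]
      rw [hsum]
      apply Submodule.sum_mem
      intro j _
      apply le_sup5 failV.{u} varY j
      simp only [varY, LTerm.eval, failV, Nat.add_eq_zero_iff, one_ne_zero, and_false, if_false]
      have : (ULift.up fun i : Fin 5 => if i = j then (1 : ℚ) else 0 : ULift.{u} (Fin 5 → ℚ))
          = ULift.up fun i : Fin 5 => if i.1 + 1 = j.1 + 1 then (1 : ℚ) else 0 := by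
        congr 1
        funext i
        simp only [add_left_inj, Fin.ext_iff]
      rw [this]
      exact Submodule.mem_span_singleton_self _
  have h2 := hr h1
  rw [Submodule.mem_bot] at h2
  have h3 := congrArg (fun x : ULift.{u} (Fin 5 → ℚ) => x.down 0) h2
  simp [hone] at h3

end fail

/-! ### Posets of regions -/

section regions

variable {d : ℕ} {A : CentralArrangement d} {B : A.Region}

/-- The region of a point, as an element of the poset of regions. -/
def reg (B : A.Region) (x : Fin d → ℝ) (hx : x ∈ A.complement) : Pos A B := regionOf x hx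

/-- The set of the points of a region. -/
def car (R : Pos A B) : Set (Fin d → ℝ) := (show A.Region from R).1

theorem mem_reg (x : Fin d → ℝ) (hx : x ∈ A.complement) : x ∈ car (reg B x hx) :=
  mem_regionOf x hx

theorem car_nonempty (R : Pos A B) : ∃ x, x ∈ car R := Region.nonempty (show A.Region from R)

theorem car_subset (R : Pos A B) : car R ⊆ A.complement := Region.subset (show A.Region from R)

theorem eq_reg (R : Pos A B) {x : Fin d → ℝ} (hx : x ∈ car R) : R = reg B x (car_subset R hx) :=
  Region.eq_regionOf (show A.Region from R) hx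

theorem le_iff_sepSet (R R' : Pos A B) :
    R ≤ R' ↔ sepSet B (show A.Region from R) ⊆ sepSet B (show A.Region from R') := Iff.rfl

/-- **The identity holds in dimension at most three.** -/
theorem holds (hd : d ≤ 3) (v : ℕ → DedekindCut (Pos A B)) : leftSide.eval v = rightSide.eval v := by
  classical
  refine le_antisymm ?_ (right_le_left v)
  obtain ⟨b, hb⟩ := B.nonempty
  choose F hF hFb using fun h : {h // h ∈ A.hyps} =>
    exists_functional h.2 (B.subset hb h.1 h.2)
  have hinj : Function.Injective F := by
    intro h k hhk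
    apply Subtype.ext
    rw [← hF h, ← hF k, hhk]
  have hfin : Module.finrank ℝ (Fin d → ℝ) ≤ 3 := by simpa using hd
  -- comparison of regions
  have hgen : ∀ x, x ∈ A.complement ↔ ∀ i, F i x ≠ 0 := by
    intro x
    constructor
    · intro hx i h0
      apply hx i.1 i.2
      rw [← hF i]
      exact LinearMap.mem_ker.2 h0
    · intro hx h hh hxh
      apply hx ⟨h, hh⟩
      rw [← LinearMap.mem_ker, hF]
      exact hxh
  have hmem : ∀ (R : A.Region) (x : Fin d → ℝ), x ∈ R.1 → ∀ i : {h // h ∈ A.hyps},
      (i.1 ∈ sepSet B R ↔ F i x < 0) := by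
    intro R x hx i
    have h := mem_sepSet_iff (R := R) hb hx (f := F i) (by rw [hF]; exact i.2)
      (by rw [hFb]; exact one_pos)
    rwa [hF] at h
  have hle : ∀ (R R' : Pos A B) (x x' : Fin d → ℝ), x ∈ car R →
      x' ∈ car R' → (R ≤ R' ↔ ∀ i, F i x < 0 → F i x' < 0) := by
    intro R R' x x' hx hx'
    rw [le_iff_sepSet]
    constructor
    · intro h i hi
      exact (hmem R' x' hx' i).1 (h ((hmem R x hx i).2 hi))
    · intro h k hk
      have hk' : k ∈ A.hyps := hk.1
      exact (hmem R' x' hx' ⟨k, hk'⟩).2 (h ⟨k, hk'⟩ ((hmem R x hx ⟨k, hk'⟩).1 hk))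
  -- the sets of points of the regions of the cuts
  set Y : Fin 5 → Set (Fin d → ℝ) := fun j =>
    {x | ∃ hx : x ∈ A.complement, reg B x hx ∈ ((varY j).eval v).left} with hY
  intro p hp
  have hp' : DedekindCut.principal p ≤ leftSide.eval v := DedekindCut.principal_le_iff.2 hp
  have hpx : DedekindCut.principal p ≤ (LTerm.var 0).eval v := hp'.trans inf_le_left
  have hpy : DedekindCut.principal p ≤ (sup5 varY).eval v := hp'.trans inf_le_right
  obtain ⟨h, hh⟩ := car_nonempty p
  have hhc : h ∈ A.complement := car_subset p hh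
  obtain ⟨i, hi⟩ := five hfin F hFb hinj Y
    (by rintro j g ⟨hg, -⟩; exact (hgen g).1 hg)
    (by
      rintro j g ⟨hg, hg'⟩ x hx hxg
      have hxc := (hgen x).2 hx
      refine ⟨hxc, ?_⟩
      have hle' : reg B x hxc ≤ reg B g hg :=
        (hle _ _ x g (mem_reg x hxc) (mem_reg g hg)).2 hxg
      rw [← DedekindCut.principal_le_iff] at hg' ⊢
      exact (DedekindCut.principal_le_principal.2 hle').trans hg')
    h ((hgen h).1 hhc)
    (by
      intro R hR hRY
      have hRc := (hgen R).2 hR
      have h1 : (sup5 varY).eval v ≤ DedekindCut.principal (reg B R hRc) := by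
        apply sup5_le
        intro j q hq
        obtain ⟨g, hg⟩ := car_nonempty q
        have hgc := car_subset q hg
        have hqe : q = reg B g hgc := eq_reg q hg
        have hgY : g ∈ Y j := ⟨hgc, by rw [← hqe]; exact hq⟩
        exact (hle q _ g R hg (mem_reg R hRc)).2 (hRY j g hgY)
      have h2 := DedekindCut.principal_le_principal.1 (hpy.trans h1)
      exact (hle p _ h R hh (mem_reg R hRc)).1 h2)
  -- `p` is below the term number `i`
  have hkey : DedekindCut.principal p
      ≤ (LTerm.inf (.var 0) (sup5 fun j => if j = i then termZ else varY j)).eval v := by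
    refine le_inf hpx ?_
    rw [DedekindCut.principal_le_iff, ← DedekindCut.lowerBounds_right]
    intro R hR
    rw [← DedekindCut.le_principal_iff] at hR
    obtain ⟨r, hr⟩ := car_nonempty R
    have hrc := car_subset R hr
    rw [hle p R h r hh hr]
    refine hi r ((hgen r).1 hrc) ?_ ?_
    · rintro j g ⟨hg, hg'⟩ hgh
      have h1 : termZ.eval v ≤ DedekindCut.principal R := by
        have := (le_sup5 v (fun j => if j = i then termZ else varY j) i).trans hR
        rwa [if_pos rfl] at this
      have h2 : DedekindCut.principal (reg B g hg) ≤ termZ.eval v := by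
        refine le_trans ?_ (le_sup5 v (fun j => .inf (.var 0) (varY j)) j)
        refine le_inf ?_ (DedekindCut.principal_le_iff.2 hg')
        refine le_trans (DedekindCut.principal_le_principal.2 ?_) hpx
        exact (hle _ p g h (mem_reg g hg) hh).2 hgh
      have h3 := DedekindCut.principal_le_principal.1 (h2.trans h1)
      exact (hle _ R g r (mem_reg g hg) hr).1 h3
    · rintro j hj g ⟨hg, hg'⟩
      have h1 : (varY j).eval v ≤ DedekindCut.principal R := by
        have := (le_sup5 v (fun j => if j = i then termZ else varY j) j).trans hR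
        rwa [if_neg hj] at this
      have h3 := DedekindCut.principal_le_principal.1
        ((DedekindCut.principal_le_iff.2 hg').trans h1)
      exact (hle _ R g r (mem_reg g hg) hr).1 h3
  have := hkey.trans (le_sup5 v
    (fun i => .inf (.var 0) (sup5 fun j => if j = i then termZ else varY j)) i)
  exact DedekindCut.principal_le_iff.1 this

end regions

end Pool.Agent.K4H37.DM
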